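import Pool.Agent.V11322.QR.Sub

/-!
# The smallest subtorsor and the de Rham-Betti subobjects of the endomorphisms
-/

set_option autoImplicit false
set_option linter.unusedSectionVars false

open Matrix

namespace Pool.Agent.V11322.QR

open Pool.Agent.Y123.ST Pool.Agent.TH127.PT Pool.Agent.Y118.HP
open Pool.Agent.TH119.MX Pool.Agent.TH119.DR

variable {n N : ℕ}

/-- all subobjects of `End M` are stable under the symplectic groups of the summands -/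
def SubStable (K : Subfield ℂ) (c : Fin N → Matrix (Fin n) (Fin n) ℂ) : Prop :=
  ∀ L R : Submodule ℂ (Matrix (Fin n × Fin N) (Fin n × Fin N) ℂ),
    IsSubobject K (blockDiagonal c) L R → ∀ g : Fin N → Matrix (Fin n) (Fin n) ℂ,
      (∀ j, g j * (bm ℚ n).map (algebraMap ℚ ℂ) * (g j)ᵀ = (bm ℚ n).map (algebraMap ℚ ℂ)) →
        ∀ w ∈ L, blockDiagonal g * w * (blockDiagonal g)⁻¹ ∈ L

/-- all homogeneous quadratic relations over `K` are consequences of the polarisations -/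
def NQ (K : Subfield ℂ) (Q c : Fin N → Matrix (Fin n) (Fin n) ℂ) : Prop :=
  ∀ P : MvPolynomial (Fin N × Fin n × Fin n) K, P.IsHomogeneous 2 →
    MvPolynomial.eval (fun s => c s.1 s.2.1 s.2.2) (MvPolynomial.map (algebraMap K ℂ) P) = 0 →
    ∀ (X : Fin N → Matrix (Fin n) (Fin n) ℂ) (μ : ℂ), μ ≠ 0 →
      (∀ j, X j * Q j * (X j)ᵀ = μ • (bm ℚ n).map (algebraMap ℚ ℂ)) →
      MvPolynomial.eval (fun s => X s.1 s.2.1 s.2.2) (MvPolynomial.map (algebraMap K ℂ) P) = 0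

theorem quad_of_NQ {K : Subfield ℂ} {Q c : Fin N → Matrix (Fin n) (Fin n) ℂ} (h : NQ K Q c) :
    NoQuad K (fun j => (-1 / 2 : ℂ) • Q j) c := by
  intro P hP hd h0 x hx
  obtain ⟨P0, rfl⟩ := exists_map P hP
  refine h P0 ?_ h0 x.1 x.2 hx.1 fun j => rel_iff.2 (hx.2 j)
  intro m hm
  apply hd
  rw [MvPolynomial.coeff_map]
  exact fun h0 => hm ((algebraMap K ℂ).injective (by rw [h0, map_zero]))

theorem sp_iff {g : Matrix (Fin n) (Fin n) ℂ} :
    g * (bm ℚ n).map (algebraMap ℚ ℂ) * gᵀ = (bm ℚ n).map (algebraMap ℚ ℂ) ↔ g ∈ SpS ℂ n := by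
  rw [bm_eq, Matrix.mul_smul, Matrix.smul_mul]
  constructor
  · intro h
    show g * jm ℂ n * gᵀ = jm ℂ n
    have h1 := congrArg (fun M => (-2 : ℂ)⁻¹ • M) h
    simp only [smul_smul] at h1
    rwa [inv_mul_cancel₀ (by norm_num), one_smul, one_smul] at h1
  · intro h
    have h1 : g * jm ℂ n * gᵀ = jm ℂ n := h
    rw [h1]

theorem bd_unit (hn : Even n) {Q c : Fin N → Matrix (Fin n) (Fin n) ℂ} {lam : ℂ}
    (hc : (c, lam) ∈ Tor Q) : IsUnit (bd c) := by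
  refine IsUnit.of_mul_eq_one (bd (fun j => (c j)⁻¹)) ?_
  rw [bd_mul]
  have : (fun j => c j * (c j)⁻¹) = 1 := by
    funext j
    exact mul_nonsing_inv _ (tor_det hn hc.1 (hc.2 j)).1
  rw [this]
  exact blockDiagonal_one

variable {K : Subfield ℂ} {Q c : Fin N → Matrix (Fin n) (Fin n) ℂ} {lam : ℂ}

theorem sub_of_omega (hn : Even n)
    (hlam : lam ≠ 0) (hc : ∀ j, c j * Q j * (c j)ᵀ = lam • (bm ℚ n).map (algebraMap ℚ ℂ))
    (h : Om K (blockDiagonal c) (TB Q)) : SubStable K c := by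
  intro L R hLR g hg w hw
  have hc' : (c, lam) ∈ Tor (fun j => (-1 / 2 : ℂ) • Q j) := ⟨hlam, fun j => rel_iff.1 (hc j)⟩
  have hcu : IsUnit (bd c) := bd_unit hn hc'
  have h1 := h.2.2 _ (resp_sub hcu hLR) ⟨hcu, hLR.compare⟩
  have h2 : bd (fun j => g j * c j) ∈ TB Q := by
    refine ⟨_, lam, hlam, rfl, fun j => ?_⟩
    rw [transpose_mul]
    calc g j * c j * Q j * ((c j)ᵀ * (g j)ᵀ) = g j * (c j * Q j * (c j)ᵀ) * (g j)ᵀ := by
          simp only [Matrix.mul_assoc]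
      _ = lam • (bm ℚ n).map (algebraMap ℚ ℂ) := by
          rw [hc j, Matrix.mul_smul, Matrix.smul_mul, hg j]
  obtain ⟨hxu, hx⟩ := h1 h2
  have hgu : IsUnit (bd g) := by
    have h3 : bd (fun j => g j * c j) = bd g * bd c := (bd_mul g c).symm
    rw [h3] at hxu
    have h4 : bd g = bd g * bd c * (bd c)⁻¹ := by
      rw [Matrix.mul_assoc, mul_nonsing_inv _ ((Matrix.isUnit_iff_isUnit_det _).1 hcu),
        Matrix.mul_one]
    rw [h4]
    refine hxu.mul (IsUnit.of_mul_eq_one (bd c) ?_)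
    exact nonsing_inv_mul _ ((Matrix.isUnit_iff_isUnit_det _).1 hcu)
  have hg1 : (bd g)⁻¹ * bd g = 1 := nonsing_inv_mul _ ((Matrix.isUnit_iff_isUnit_det _).1 hgu)
  rw [hx]
  have h5 : (bd fun j => g j * c j)⁻¹ * (bd g * w * (bd g)⁻¹) * (bd fun j => g j * c j) =
      (bd c)⁻¹ * w * bd c := by
    rw [← bd_mul g c, Matrix.mul_inv_rev]
    have : (bd c)⁻¹ * (bd g)⁻¹ * (bd g * w * (bd g)⁻¹) * (bd g * bd c) =
        (bd c)⁻¹ * (((bd g)⁻¹ * bd g) * w * ((bd g)⁻¹ * bd g)) * bd c := by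
      simp only [Matrix.mul_assoc]
    rw [this, hg1, Matrix.one_mul, Matrix.mul_one]
  rw [h5]
  exact (hLR.compare w).1 hw

theorem omega_of_sub (hn : Even n) (hn0 : 0 < n) (hN : 0 < N) (hK : ∀ x ∈ K, IsAlgebraic ℚ x)
    (hQ : ∀ j a b, Q j a b ∈ K) (hlam : Transcendental ℚ lam)
    (hc : ∀ j, c j * Q j * (c j)ᵀ = lam • (bm ℚ n).map (algebraMap ℚ ℂ))
    (hnon : ∀ j, ¬ ∃ (ν : ℂ) (a : Matrix (Fin n) (Fin n) ℂ), (∀ i k, IsAlgebraic ℚ (a i k)) ∧
      c j = ν • a) (h : SubStable K c) : Om K (blockDiagonal c) (TB Q) := by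
  have hlam0 : lam ≠ 0 := by
    rintro rfl
    exact hlam isAlgebraic_zero
  have hc' : (c, lam) ∈ Tor (fun j => (-1 / 2 : ℂ) • Q j) := ⟨hlam0, fun j => rel_iff.1 (hc j)⟩
  refine ⟨?_, ⟨c, lam, hlam0, rfl, hc⟩, fun T hT hcT => ?_⟩
  · rw [subT_iff, TB_eq]
    exact tor_sub hn hn0 hN (half_mem hQ) hc'
  · rintro _ ⟨X, μ, hμ, rfl, hX⟩
    have hT' := subT_iff.1 hT
    have hC : CStab T := by
      intro g g' hg hg' hgg w hw
      have h1 := h _ _ (lie_sub hT' hcT) g (fun j => sp_iff.2 (hg j)) w hw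
      have h2 : bd g * bd g' = 1 := by
        rw [bd_mul]
        have : (fun j => g j * g' j) = 1 := funext hgg
        rw [this]
        exact blockDiagonal_one
      have h3 : (bd g)⁻¹ = bd g' := inv_eq_right_inv h2
      rw [h3] at h1
      exact h1
    have hE : ∀ j u, EE u ∈ LJ T j := by
      intro j
      obtain ⟨D, hD⟩ := exists_ld hn hK hc' j (hnon j)
      obtain ⟨v, hv⟩ := exists_vec hn (ld_rel hn (half_mem hQ) hc' D j) (hD _)
      have hv0 : v ≠ 0 := by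
        rintro rfl
        apply hv
        rw [zero_dotProduct]
      exact EE_all hn hC j hv0 (EE_mem_of hC (ld_mem hn hT' hc' hcT D) j hv)
    exact full_of_EE hn hK hT' (half_mem hQ) hc' hcT hlam hE (X, μ)
      ⟨hμ, fun j => rel_iff.1 (hX j)⟩

theorem omega_of_quad (hn : Even n) (hn0 : 0 < n) (hN : 0 < N) (hK : ∀ x ∈ K, IsAlgebraic ℚ x)
    (hQ : ∀ j a b, Q j a b ∈ K) (hlam : Transcendental ℚ lam)
    (hc : ∀ j, c j * Q j * (c j)ᵀ = lam • (bm ℚ n).map (algebraMap ℚ ℂ))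
    (hnon : ∀ j, ¬ ∃ (ν : ℂ) (a : Matrix (Fin n) (Fin n) ℂ), (∀ i k, IsAlgebraic ℚ (a i k)) ∧
      c j = ν • a) (h : NQ K Q c) : Om K (blockDiagonal c) (TB Q) := by
  have hlam0 : lam ≠ 0 := by
    rintro rfl
    exact hlam isAlgebraic_zero
  have hc' : (c, lam) ∈ Tor (fun j => (-1 / 2 : ℂ) • Q j) := ⟨hlam0, fun j => rel_iff.1 (hc j)⟩
  refine ⟨?_, ⟨c, lam, hlam0, rfl, hc⟩, fun T hT hcT => ?_⟩
  · rw [subT_iff, TB_eq]
    exact tor_sub hn hn0 hN (half_mem hQ) hc'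
  · rintro _ ⟨X, μ, hμ, rfl, hX⟩
    exact full hn hK (subT_iff.1 hT) (half_mem hQ) hc' hcT hlam hnon (quad_of_NQ h) (X, μ)
      ⟨hμ, fun j => rel_iff.1 (hX j)⟩

/-- the classes in all tensor spaces -/
theorem cls_of_omega (hn : Even n) (hn0 : 0 < n) (hN : 0 < N) (hQ : ∀ j a b, Q j a b ∈ K)
    (hlam0 : lam ≠ 0) (hc : ∀ j, c j * Q j * (c j)ᵀ = lam • (bm ℚ n).map (algebraMap ℚ ℂ))
    (h : Om K (blockDiagonal c) (TB Q))
    (κ : Type) [Fintype κ] [DecidableEq κ] (m : ℕ) (F : (κ → Fin n × Fin N) → ℚ) :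
    (∃ a : (κ → Fin n × Fin N) → K, ∀ I, lam ^ m * (F I : ℂ) =
      ∑ I', (∏ k, blockDiagonal c (I k) (I' k)) * (a I' : ℂ)) ↔
      F ∈ Submodule.span ℚ {G | ∃ (e : Fin m × Fin 2 ≃ κ) (b : Fin m → Fin N), G = prB n e b} := by
  have hc' : (c, lam) ∈ Tor (fun j => (-1 / 2 : ℂ) • Q j) := ⟨hlam0, fun j => rel_iff.1 (hc j)⟩
  have h2 : Submodule.span ℚ {G : (κ → Fin n × Fin N) → ℚ |
      ∃ (e : Fin m × Fin 2 ≃ κ) (b : Fin m → Fin N), G = prB n e b} =
      Submodule.span ℚ {G | ∃ (e : Fin m × Fin 2 ≃ κ) (b : Fin m → Fin N), G = pr n e b} := by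
    apply le_antisymm
    · rw [Submodule.span_le]
      rintro _ ⟨e, b, rfl⟩
      rw [prB_eq]
      exact Submodule.smul_mem _ _ (Submodule.subset_span ⟨e, b, rfl⟩)
    · rw [Submodule.span_le]
      rintro _ ⟨e, b, rfl⟩
      have h3 : pr n e b = ((-2 : ℚ) ^ m)⁻¹ • prB n e b := by
        rw [prB_eq, smul_smul, inv_mul_cancel₀ (pow_ne_zero _ (by norm_num)), one_smul]
      rw [h3]
      exact Submodule.smul_mem _ _ (Submodule.subset_span ⟨e, b, rfl⟩)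
  rw [h2]
  constructor
  · rintro ⟨a, ha⟩
    by_cases h0 : F = 0
    · rw [h0]
      exact Submodule.zero_mem _
    · have hF : Cls c lam m (fun I => (a I : ℂ)) F := ha
      have hall : ∀ x ∈ Tor (fun j => (-1 / 2 : ℂ) • Q j), Cls x.1 x.2 m (fun I => (a I : ℂ)) F := by
        intro x hx
        have h4 := h.2.2 _ (subT_iff.2 (TF_sub (κ := κ) (m := m) hn hn0 hN (half_mem hQ) hc'
          (fun I => (a I).2) F)) ⟨c, lam, rfl, hc', hF⟩
        have h5 : bd x.1 ∈ TB Q := by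
          rw [TB_eq]
          exact ⟨x.1, x.2, rfl, hx⟩
        obtain ⟨X, mu, h6, h7, h8⟩ := h4 h5
        have h9 : x.1 = X := bd_inj h6
        subst h9
        have h10 : x.2 = mu := tor_lam hn hn0 hN (show (x.1, x.2) ∈ Tor _ from hx) h7
        rw [h10]
        exact h8
      exact span_of hn (deg_of hc' hall h0) (fun g hg => inv_of hc' hall hg)
  · intro hF
    obtain ⟨a, ha, h3⟩ := cls_of_span hc' (half_mem hQ) hF
    exact ⟨fun I => ⟨a I, ha I⟩, h3⟩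

end Pool.Agent.V11322.QR
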