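import Pool.Agent.V11322.QR.Main
import Pool.Agent.Y123.SR.R4

/-!
# Sums with a fixed object and the de Rham-Betti subobjects of the endomorphisms
-/

set_option autoImplicit false
set_option linter.unusedSectionVars false

open Matrix

namespace Pool.Agent.V11322.QR

open Pool.Agent.Y123.ST Pool.Agent.Y123.SR Pool.Agent.TH127.PT Pool.Agent.Y118.HP

section rel

variable {B₀ : Type} [Fintype B₀] [DecidableEq B₀] {n N : ℕ} {K : Subfield ℂ}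
  {Q c : Fin N → Matrix (Fin n) (Fin n) ℂ} {c₀ : Matrix B₀ B₀ ℂ} {b₀ : B₀}

/-- all subobjects of `End` are stable under the symplectic groups -/
def SubStable2 (K : Subfield ℂ) (c₀ : Matrix B₀ B₀ ℂ) (c : Fin N → Matrix (Fin n) (Fin n) ℂ) :
    Prop :=
  ∀ L R : Submodule ℂ (Matrix (I2 B₀ n N) (I2 B₀ n N) ℂ),
    IsSubobject K (E2 c₀ c) L R → ∀ g : Fin N → Matrix (Fin n) (Fin n) ℂ,
      (∀ j, g j ∈ SpS ℂ n) → ∀ w ∈ L, E2 1 g * w * (E2 1 g)⁻¹ ∈ L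

/-- all subtorsors are fibre products -/
def AllFP (K : Subfield ℂ) (Q : Fin N → Matrix (Fin n) (Fin n) ℂ) (b₀ : B₀)
    (c₀ : Matrix B₀ B₀ ℂ) (c : Fin N → Matrix (Fin n) (Fin n) ℂ) : Prop :=
  ∀ T : Set (Matrix (I2 B₀ n N) (I2 B₀ n N) ℂ), IsSubtorsor K T → E2 c₀ c ∈ T →
    T ⊆ FP Q b₀ {x | IsUnit x} →
      IsSubtorsor K {x : Matrix B₀ B₀ ℂ | ∃ X, E2 x X ∈ T} ∧
        T = FP Q b₀ {x : Matrix B₀ B₀ ℂ | ∃ X, E2 x X ∈ T}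

theorem all_of_cs (hn : Even n) (hK : ∀ x ∈ K, IsAlgebraic ℚ x) (hQ : ∀ j a b, Q j a b ∈ K)
    (hc : (c, c₀ b₀ b₀) ∈ Tor Q)
    (hnon : ∀ j, ¬ ∃ (ν : ℂ) (a : Matrix (Fin n) (Fin n) ℂ), (∀ i k, IsAlgebraic ℚ (a i k)) ∧
      c j = ν • a)
    (h : ∀ T : Set (Matrix (I2 B₀ n N) (I2 B₀ n N) ℂ), IsSubtorsor K T → E2 c₀ c ∈ T → CS T) :
    AllFP K Q b₀ c₀ c := by
  intro T hT hcT hTF
  have hC : CS T := h T hT hcT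
  have hcm : IsUnit c₀ := by
    obtain ⟨x', X', hx', hcm, hXt, hxx⟩ := hTF hcT
    obtain ⟨e1, e2⟩ := E2_inj hxx
    rw [e1]
    exact hx'
  have hE : ∀ j u, EE u ∈ LB T j := by
    intro j u
    obtain ⟨D, hD⟩ := exists_ld hn hK hc j (hnon j)
    obtain ⟨v, hv⟩ := exists_vec hn (ld_rel hn hQ hc D j) (hD _)
    have hv0 : v ≠ 0 := by
      rintro rfl
      apply hv
      rw [zero_dotProduct]
    exact EE_all2 hn hC j hv0 (EE_mem_of2 hC (ld_mem2 hn hT hcm hc hcT D) j hv) u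
  refine ⟨proj_sub (c₀ := c₀) hn hT hTF hc hE, Set.Subset.antisymm (fun y hy => ?_) ?_⟩
  · obtain ⟨x, X, hx, hxm, hX, rfl⟩ := hTF hy
    exact ⟨x, X, ⟨X, hy⟩, hxm, hX, rfl⟩
  · rintro _ ⟨x, X, ⟨Y, hY⟩, hxm, hX, rfl⟩
    obtain ⟨x', Y', hx', hxm', hY', hxx⟩ := hTF hY
    obtain ⟨e1, e2⟩ := E2_inj hxx
    subst e1 e2
    exact fib_stab hn hT hE hY' hX hY

theorem cs_of_sub (h : SubStable2 K c₀ c) (T : Set (Matrix (I2 B₀ n N) (I2 B₀ n N) ℂ))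
    (hT : IsSubtorsor K T) (hcT : E2 c₀ c ∈ T) : CS T := by
  intro g g' hg hg' hgg w hw
  have h1 := h _ _ (lie_sub hT hcT) g hg w hw
  have h2 : E2 (1 : Matrix B₀ B₀ ℂ) g * E2 1 g' = 1 := by
    rw [E2_mul, one_mul, ← E2_one]
    congr 1
    funext j
    exact hgg j
  rw [inv_eq_right_inv h2] at h1
  exact h1

/-- the smallest subtorsor -/
theorem om_of_all2 (hn : Even n) (hQ : ∀ j a b, Q j a b ∈ K) (hu : IsUnit c₀)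
    (hcm : Cm b₀ c₀) (htor : (c, c₀ b₀ b₀) ∈ Tor Q) (h : AllFP K Q b₀ c₀ c)
    {Ω₀ : Set (Matrix B₀ B₀ ℂ)} (hΩ : Om K c₀ Ω₀) : Om K (E2 c₀ c) (FP Q b₀ Ω₀) := by
  obtain ⟨hΩ1, hΩ2, hΩ3⟩ := hΩ
  refine ⟨?_, ⟨c₀, c, hΩ2, hcm, htor, rfl⟩, fun T hT hcT => ?_⟩
  · rw [subT_iff]
    exact fp_sub hn hQ b₀ (subT_iff.1 hΩ1)
  · have hI := inter_sub (fp_sub (K := K) hn hQ b₀ (units_sub (B₀ := B₀))) (subT_iff.1 hT)
    have hcI : E2 c₀ c ∈ FP Q b₀ {x | IsUnit x} ∩ T := ⟨⟨c₀, c, hu, hcm, htor, rfl⟩, hcT⟩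
    obtain ⟨h1, h2⟩ := h _ hI hcI Set.inter_subset_left
    have h3 := hΩ3 _ (subT_iff.2 h1) ⟨c, hcI⟩
    rintro _ ⟨x, X, h4, h5, h6, rfl⟩
    have h7 : E2 x X ∈ FP Q b₀ {x : Matrix B₀ B₀ ℂ | ∃ X, E2 x X ∈ FP Q b₀ {x | IsUnit x} ∩ T} :=
      ⟨x, X, h3 h4, h5, h6, rfl⟩
    rw [← h2] at h7
    exact h7.2

/-- intersections of subtorsors -/
theorem sInter_sub2 {B : Type} [Fintype B] [DecidableEq B] {F : Set (Set (Matrix B B ℂ))}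
    (hF : F.Nonempty) (h : ∀ T ∈ F, IsSubtorsor K T) : IsSubtorsor K (⋂₀ F) := by
  obtain ⟨T0, hT0⟩ := hF
  have hunit : ∀ x ∈ ⋂₀ F, IsUnit x := fun x hx => (h T0 hT0).isUnit x (hx T0 hT0)
  refine ⟨hunit, fun x hx y hy z hz T hT => (h T hT).torsor x (hx T hT) y (hy T hT) z (hz T hT),
    alg_of hunit fun y hu hy T hT => ?_⟩
  obtain ⟨I, h1, h2⟩ := (h T hT).algebraic
  rw [h2]
  refine ⟨hu, fun p hp => ?_⟩
  obtain ⟨p0, hp0⟩ := exists_map p (h1 p hp)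
  refine hy p ⟨p0, hp0⟩ fun x hx => ?_
  exact ((h2 x).1 (hx T hT)).2 p hp

/-- the smallest subtorsor exists -/
theorem exists_om {B : Type} [Fintype B] [DecidableEq B] {c : Matrix B B ℂ} (hc : IsUnit c) :
    ∃ Ω, Om K c Ω := by
  refine ⟨⋂₀ {T | SubT K T ∧ c ∈ T}, ?_, fun T hT => hT.2, fun T hT hcT x hx => hx T ⟨hT, hcT⟩⟩
  rw [subT_iff]
  exact sInter_sub2 ⟨{x | IsUnit x}, subT_iff.2 units_sub, hc⟩ fun T hT => subT_iff.1 hT.1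

theorem sub_of_om (hn : Even n) (hu : IsUnit c₀) (hcm : Cm b₀ c₀) (hc : (c, c₀ b₀ b₀) ∈ Tor Q)
    {Ω₀ : Set (Matrix B₀ B₀ ℂ)} (hΩ₀ : c₀ ∈ Ω₀) (h : Om K (E2 c₀ c) (FP Q b₀ Ω₀)) :
    SubStable2 K c₀ c := by
  intro L R hLR g hg w hw
  have hcu : IsUnit (E2 c₀ c) := E2_isUnit hu fun j => (tor_det hn hc.1 (hc.2 j)).1
  have h1 := h.2.2 _ (resp_sub hcu hLR) ⟨hcu, hLR.compare⟩
  have h2 : E2 c₀ (fun j => g j * c j) ∈ FP Q b₀ Ω₀ := ⟨c₀, _, hΩ₀, hcm, sp_tor hc hg, rfl⟩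
  obtain ⟨hxu, hx⟩ := h1 h2
  have h3 : E2 c₀ (fun j => g j * c j) = E2 1 g * E2 c₀ c := by rw [E2_mul, one_mul]
  have hcdet := (Matrix.isUnit_iff_isUnit_det _).1 hcu
  have hgu : IsUnit (E2 (1 : Matrix B₀ B₀ ℂ) g) := by
    rw [h3] at hxu
    have h4 : E2 (1 : Matrix B₀ B₀ ℂ) g = E2 1 g * E2 c₀ c * (E2 c₀ c)⁻¹ := by
      rw [Matrix.mul_assoc, mul_nonsing_inv _ hcdet, Matrix.mul_one]
    rw [h4]
    refine hxu.mul (IsUnit.of_mul_eq_one (E2 c₀ c) ?_)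
    exact nonsing_inv_mul _ hcdet
  have hg1 : (E2 (1 : Matrix B₀ B₀ ℂ) g)⁻¹ * E2 1 g = 1 :=
    nonsing_inv_mul _ ((Matrix.isUnit_iff_isUnit_det _).1 hgu)
  rw [hx]
  have h5 : (E2 c₀ fun j => g j * c j)⁻¹ * (E2 1 g * w * (E2 1 g)⁻¹) * (E2 c₀ fun j => g j * c j) =
      (E2 c₀ c)⁻¹ * w * E2 c₀ c := by
    rw [h3, Matrix.mul_inv_rev]
    have : (E2 c₀ c)⁻¹ * (E2 1 g)⁻¹ * (E2 1 g * w * (E2 1 g)⁻¹) * (E2 1 g * E2 c₀ c) =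
        (E2 c₀ c)⁻¹ * (((E2 1 g)⁻¹ * E2 1 g) * w * ((E2 1 g)⁻¹ * E2 1 g)) * E2 c₀ c := by
      simp only [Matrix.mul_assoc]
    rw [this, hg1, Matrix.one_mul, Matrix.mul_one]
  rw [h5]
  exact (hLR.compare w).1 hw

end rel

end Pool.Agent.V11322.QR
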