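import Pool.Agent.Y123.ST.Out

/-!
# De Rham-Betti subobjects of the endomorphisms, and subtorsors
-/

set_option autoImplicit false
set_option linter.unusedSectionVars false

open Matrix

namespace Pool.Agent.V11322.QR

open Pool.Agent.Y123.ST Pool.Agent.TH127.PT Pool.Agent.Y118.HP
open Pool.Agent.TH119.MX Pool.Agent.TH119.DR

section gen

variable {B : Type} [Fintype B] [DecidableEq B]

/-- a space of matrices which is spanned by its elements with entries in `K` -/
def RationalOver (K : Subfield ℂ) (L : Submodule ℂ (Matrix B B ℂ)) : Prop :=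
  L ≤ Submodule.span ℂ {w | w ∈ L ∧ ∀ i j, w i j ∈ K}

/-- A de Rham-Betti subobject of `End (M)`, with coefficients in `K` on the Betti side: a subspace `L`
of the Betti realisation and a subspace `R` of the de Rham realisation, both rational over `K`, which
correspond to each other under the comparison isomorphism `w ↦ c w c⁻¹`. -/
structure IsSubobject (K : Subfield ℂ) (c : Matrix B B ℂ) (L R : Submodule ℂ (Matrix B B ℂ)) :
    Prop where
  betti : RationalOver K L
  deRham : RationalOver K R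
  compare : ∀ w, w ∈ L ↔ c⁻¹ * w * c ∈ R

/-- matrices as functions -/
def flE : Matrix B B ℂ ≃ₗ[ℂ] (B × B → ℂ) where
  toFun := fl
  invFun := um
  left_inv := um_fl
  right_inv := fl_um
  map_add' := fl_add
  map_smul' := fl_smul

theorem rational_iff {K : Subfield ℂ} {W : Submodule ℂ (B × B → ℂ)} (h : DefOver K W) :
    RationalOver K (W.comap (flE (B := B)).toLinearMap) := by
  intro w hw
  have h1 : fl w ∈ W := hw
  have h2 := h h1
  have key : ∀ v ∈ Submodule.span ℂ {w : B × B → ℂ | w ∈ W ∧ ∀ a, w a ∈ K},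
      um v ∈ Submodule.span ℂ {w : Matrix B B ℂ | w ∈ W.comap (flE (B := B)).toLinearMap ∧
        ∀ i j, w i j ∈ K} := by
    intro v hv
    induction hv using Submodule.span_induction with
    | mem v hv =>
      refine Submodule.subset_span ⟨?_, fun i j => hv.2 (i, j)⟩
      show fl (um v) ∈ W
      rw [fl_um]
      exact hv.1
    | zero => rw [um_zero]; exact Submodule.zero_mem _
    | add u v _ _ hu hv => rw [um_add]; exact Submodule.add_mem _ hu hv
    | smul z u _ hu => rw [um_smul]; exact Submodule.smul_mem _ _ hu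
  have h3 := key _ h2
  rwa [um_fl] at h3

/-- rational spaces are stable under automorphisms -/
theorem rational_aut {K : Subfield ℂ} {R : Submodule ℂ (Matrix B B ℂ)} (h : RationalOver K R)
    {σ : ℂ ≃+* ℂ} (hσ : ∀ x ∈ K, σ x = x) {v : Matrix B B ℂ} (hv : v ∈ R) : v.map σ ∈ R := by
  have h1 := h hv
  clear hv
  induction h1 using Submodule.span_induction with
  | mem v hv =>
    have : v.map σ = v := by
      ext i j
      exact hσ _ (hv.2 i j)
    rw [this]
    exact hv.1
  | zero =>
    have : (0 : Matrix B B ℂ).map σ = 0 := by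
      ext i j
      simp
    rw [this]
    exact R.zero_mem
  | add u v _ _ hu hv =>
    have : (u + v).map σ = u.map σ + v.map σ := by
      ext i j
      simp
    rw [this]
    exact R.add_mem hu hv
  | smul z u _ hu =>
    have : (z • u).map σ = σ z • u.map σ := by
      ext i j
      simp
    rw [this]
    exact R.smul_mem _ hu

/-- the annihilator -/
def Ann (R : Submodule ℂ (Matrix B B ℂ)) : Submodule ℂ (B × B → ℂ) where
  carrier := {u | ∀ a ∈ R, ∑ b, u b * fl a b = 0}
  zero_mem' := by intro a _; simp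
  add_mem' := by
    intro u v hu hv a ha
    simp only [Pi.add_apply, add_mul, Finset.sum_add_distrib]
    rw [hu a ha, hv a ha, add_zero]
  smul_mem' := by
    intro z u hu a ha
    simp only [Pi.smul_apply, smul_eq_mul, mul_assoc, ← Finset.mul_sum]
    rw [hu a ha, mul_zero]

theorem ann_def {K : Subfield ℂ} {R : Submodule ℂ (Matrix B B ℂ)} (h : RationalOver K R) :
    DefOver K (Ann R) := by
  refine defOver_of_aut (Ann R) fun σ hσ u hu a ha => ?_
  have hσ' : ∀ x ∈ K, σ.symm x = x := symm_fix hσ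
  have h1 := hu _ (rational_aut h hσ' ha)
  have h2 := congrArg σ h1
  rw [map_zero, map_sum] at h2
  rw [← h2]
  refine Finset.sum_congr rfl fun b _ => ?_
  rw [map_mul]
  congr 1
  show fl a b = σ ((a.map σ.symm) b.1 b.2)
  rw [Matrix.map_apply, RingEquiv.apply_symm_apply]
  rfl

/-- membership is tested by rational functionals -/
theorem mem_of_ann {K : Subfield ℂ} {R : Submodule ℂ (Matrix B B ℂ)} (h : RationalOver K R)
    {v : Matrix B B ℂ}
    (hv : ∀ u : B × B → ℂ, u ∈ Ann R → (∀ b, u b ∈ K) → ∑ b, u b * fl v b = 0) : v ∈ R := by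
  by_contra hcon
  obtain ⟨f, hf1, hf2⟩ := Submodule.exists_le_ker_of_notMem hcon
  have hf3 : ∀ a : Matrix B B ℂ, f a = ∑ b, f (um (Pi.single b 1)) * fl a b := by
    intro a
    have h1 := LinearMap.pi_apply_eq_sum_univ (f.comp (flE (B := B)).symm.toLinearMap) (fl a)
    have h2 : (f.comp (flE (B := B)).symm.toLinearMap) (fl a) = f a := by
      show f (um (fl a)) = f a
      rw [um_fl]
    rw [← h2, h1]
    refine Finset.sum_congr rfl fun b _ => ?_
    have h : (fun j => if b = j then (1 : ℂ) else 0) = Pi.single b 1 := by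
      funext j
      simp [Pi.single_apply, eq_comm]
    rw [h, smul_eq_mul, mul_comm]
    rfl
  apply hf1
  rw [hf3]
  have hA : (fun b => f (um (Pi.single b 1))) ∈ Ann R := by
    intro a ha
    rw [← hf3]
    exact hf2 ha
  have key : ∀ u ∈ Submodule.span ℂ {w : B × B → ℂ | w ∈ Ann R ∧ ∀ a, w a ∈ K},
      ∑ b, u b * fl v b = 0 := by
    intro u hu
    induction hu using Submodule.span_induction with
    | mem u hu => exact hv u hu.1 hu.2
    | zero => simp
    | add u v _ _ hu hv =>
      simp only [Pi.add_apply, add_mul, Finset.sum_add_distrib]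
      rw [hu, hv, add_zero]
    | smul z u _ hu =>
      simp only [Pi.smul_apply, smul_eq_mul, mul_assoc z, ← Finset.mul_sum]
      rw [hu, mul_zero]
  exact key _ (ann_def h hA)

/-- the set of the isomorphisms which respect a subobject -/
def Resp (L R : Submodule ℂ (Matrix B B ℂ)) : Set (Matrix B B ℂ) :=
  {x | IsUnit x ∧ ∀ w, w ∈ L ↔ x⁻¹ * w * x ∈ R}

theorem resp_iff {c x : Matrix B B ℂ} {L R : Submodule ℂ (Matrix B B ℂ)} (hc : IsUnit c)
    (hcLR : ∀ w, w ∈ L ↔ c⁻¹ * w * c ∈ R) (hx : IsUnit x) :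
    (∀ w, w ∈ L ↔ x⁻¹ * w * x ∈ R) ↔ ∀ w ∈ L, x⁻¹ * w * x ∈ R := by
  constructor
  · intro h w hw
    exact (h w).1 hw
  · intro h
    have hc1 : c⁻¹ * c = 1 := nonsing_inv_mul _ ((Matrix.isUnit_iff_isUnit_det c).1 hc)
    have hc2 : c * c⁻¹ = 1 := mul_nonsing_inv _ ((Matrix.isUnit_iff_isUnit_det c).1 hc)
    have hx1 : x⁻¹ * x = 1 := nonsing_inv_mul _ ((Matrix.isUnit_iff_isUnit_det x).1 hx)
    have hx2 : x * x⁻¹ = 1 := mul_nonsing_inv _ ((Matrix.isUnit_iff_isUnit_det x).1 hx)
    -- the endomorphism of `L`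
    let T : L →ₗ[ℂ] L :=
      { toFun := fun w => ⟨c * (x⁻¹ * w * x) * c⁻¹, by
          rw [hcLR]
          have : c⁻¹ * (c * (x⁻¹ * (w : Matrix B B ℂ) * x) * c⁻¹) * c =
              (c⁻¹ * c) * (x⁻¹ * w * x) * (c⁻¹ * c) := by simp only [Matrix.mul_assoc]
          rw [this, hc1, Matrix.one_mul, Matrix.mul_one]
          exact h w w.2⟩
        map_add' := by
          intro u v
          apply Subtype.ext
          show c * (x⁻¹ * ((u : Matrix B B ℂ) + v) * x) * c⁻¹ =
            c * (x⁻¹ * u * x) * c⁻¹ + c * (x⁻¹ * v * x) * c⁻¹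
          simp only [Matrix.mul_add, Matrix.add_mul]
        map_smul' := by
          intro z u
          apply Subtype.ext
          show c * (x⁻¹ * (z • (u : Matrix B B ℂ)) * x) * c⁻¹ = z • (c * (x⁻¹ * u * x) * c⁻¹)
          simp only [Matrix.mul_smul, Matrix.smul_mul] }
    have hinj : Function.Injective T := by
      intro u v huv
      have h1 : c * (x⁻¹ * (u : Matrix B B ℂ) * x) * c⁻¹ = c * (x⁻¹ * v * x) * c⁻¹ :=
        congrArg Subtype.val huv
      have h2 : ∀ u : Matrix B B ℂ, x * (c⁻¹ * (c * (x⁻¹ * u * x) * c⁻¹) * c) * x⁻¹ = u := by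
        intro u
        have : x * (c⁻¹ * (c * (x⁻¹ * u * x) * c⁻¹) * c) * x⁻¹ =
            (x * ((c⁻¹ * c) * x⁻¹)) * u * (x * (c⁻¹ * c) * x⁻¹) := by
          simp only [Matrix.mul_assoc]
        rw [this, hc1, Matrix.one_mul, Matrix.mul_one, hx2, Matrix.one_mul, Matrix.mul_one]
      apply Subtype.ext
      rw [← h2 u, h1, h2 v]
    have hsur : Function.Surjective T := LinearMap.surjective_of_injective hinj
    intro w
    refine ⟨fun hw => h w hw, fun hw => ?_⟩
    have h3 : c * (x⁻¹ * w * x) * c⁻¹ ∈ L := by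
      rw [hcLR]
      have : c⁻¹ * (c * (x⁻¹ * w * x) * c⁻¹) * c =
          (c⁻¹ * c) * (x⁻¹ * w * x) * (c⁻¹ * c) := by simp only [Matrix.mul_assoc]
      rw [this, hc1, Matrix.one_mul, Matrix.mul_one]
      exact hw
    obtain ⟨u, hu⟩ := hsur ⟨_, h3⟩
    have h4 : c * (x⁻¹ * (u : Matrix B B ℂ) * x) * c⁻¹ = c * (x⁻¹ * w * x) * c⁻¹ :=
      congrArg Subtype.val hu
    have h2 : ∀ u : Matrix B B ℂ, x * (c⁻¹ * (c * (x⁻¹ * u * x) * c⁻¹) * c) * x⁻¹ = u := by
      intro u
      have : x * (c⁻¹ * (c * (x⁻¹ * u * x) * c⁻¹) * c) * x⁻¹ =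
          (x * ((c⁻¹ * c) * x⁻¹)) * u * (x * (c⁻¹ * c) * x⁻¹) := by
        simp only [Matrix.mul_assoc]
      rw [this, hc1, Matrix.one_mul, Matrix.mul_one, hx2, Matrix.one_mul, Matrix.mul_one]
    rw [← h2 w, ← h4, h2]
    exact u.2

/-- the generic matrix -/
noncomputable def GMx (K : Subfield ℂ) (B : Type) : Matrix B B (MvPolynomial (B × B) K) :=
  Matrix.of fun i j => MvPolynomial.X (i, j)

/-- the constant matrix -/
noncomputable def CMx (K : Subfield ℂ) (w : Matrix B B K) : Matrix B B (MvPolynomial (B × B) K) :=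
  Matrix.of fun i j => MvPolynomial.C (w i j)

/-- the conjugated matrix, up to the determinant -/
noncomputable def PMx (K : Subfield ℂ) (w : Matrix B B K) : Matrix B B (MvPolynomial (B × B) K) :=
  (GMx K B).adjugate * CMx K w * GMx K B

/-- the polynomials which define the torsor -/
noncomputable def pol (K : Subfield ℂ) (u : B × B → K) (w : Matrix B B K) :
    MvPolynomial (B × B) K :=
  ∑ b : B × B, MvPolynomial.C (u b) * PMx K w b.1 b.2

theorem pol_eval (K : Subfield ℂ) (u : B × B → K) (w : Matrix B B K) (x : Matrix B B ℂ) :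
    MvPolynomial.eval (fun b => x b.1 b.2) (MvPolynomial.map (algebraMap K ℂ) (pol K u w)) =
      ∑ b : B × B, (u b : ℂ) * (x.adjugate * w.map (algebraMap K ℂ) * x) b.1 b.2 := by
  set φ : MvPolynomial (B × B) K →+* ℂ := (MvPolynomial.eval (fun b : B × B => x b.1 b.2)).comp
    (MvPolynomial.map (algebraMap K ℂ)) with hφ
  have hX : ∀ i j, φ (MvPolynomial.X (i, j)) = x i j := by
    intro i j
    simp [hφ]
  have hC : ∀ a : K, φ (MvPolynomial.C a) = (a : ℂ) := by
    intro a
    simp only [hφ, RingHom.comp_apply, MvPolynomial.map_C, MvPolynomial.eval_C]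
    rfl
  have h1 : (GMx K B).map φ = x := by
    ext i j
    exact hX i j
  have h2 : (CMx K w).map φ = w.map (algebraMap K ℂ) := by
    ext i j
    exact hC _
  show φ (pol K u w) = _
  unfold pol
  rw [map_sum]
  refine Finset.sum_congr rfl fun b _ => ?_
  rw [map_mul, hC]
  congr 1
  have h3 : (PMx K w).map φ = x.adjugate * w.map (algebraMap K ℂ) * x := by
    unfold PMx
    rw [Matrix.map_mul, Matrix.map_mul, h1, h2]
    congr 2
    have h4 := RingHom.map_adjugate φ (GMx K B)
    rw [RingHom.mapMatrix_apply, RingHom.mapMatrix_apply, h1] at h4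
    exact h4
  rw [← h3]
  rfl

/-- **The isomorphisms which respect a subobject form a subtorsor.** -/
theorem resp_sub {K : Subfield ℂ} {c : Matrix B B ℂ} {L R : Submodule ℂ (Matrix B B ℂ)}
    (hc : IsUnit c) (h : IsSubobject K c L R) : SubT K (Resp L R) := by
  classical
  constructor
  · rintro x ⟨hx, hx'⟩ y ⟨hy, hy'⟩ z ⟨hz, hz'⟩
    have hy1 : y⁻¹ * y = 1 := nonsing_inv_mul _ ((Matrix.isUnit_iff_isUnit_det y).1 hy)
    have hy2 : y * y⁻¹ = 1 := mul_nonsing_inv _ ((Matrix.isUnit_iff_isUnit_det y).1 hy)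
    have hyi : IsUnit y⁻¹ := IsUnit.of_mul_eq_one _ hy1
    refine ⟨(hx.mul hyi).mul hz, fun w => ?_⟩
    rw [hx' w]
    have e1 : x⁻¹ * w * x = y⁻¹ * (y * (x⁻¹ * w * x) * y⁻¹) * y := by
      have : y⁻¹ * (y * (x⁻¹ * w * x) * y⁻¹) * y = (y⁻¹ * y) * (x⁻¹ * w * x) * (y⁻¹ * y) := by
        simp only [Matrix.mul_assoc]
      rw [this, hy1, Matrix.one_mul, Matrix.mul_one]
    rw [e1, ← hy', hz']
    have hxi : (x * y⁻¹ * z)⁻¹ = z⁻¹ * y * x⁻¹ := by
      rw [Matrix.mul_inv_rev, Matrix.mul_inv_rev, Matrix.nonsing_inv_nonsing_inv _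
        ((Matrix.isUnit_iff_isUnit_det y).1 hy), Matrix.mul_assoc]
    rw [hxi]
    have e2 : z⁻¹ * (y * (x⁻¹ * w * x) * y⁻¹) * z = z⁻¹ * y * x⁻¹ * w * (x * y⁻¹ * z) := by
      simp only [Matrix.mul_assoc]
    rw [e2]
  · refine ⟨{P | ∃ (u : B × B → K) (w : Matrix B B K), (fun b => (u b : ℂ)) ∈ Ann R ∧
      w.map (algebraMap K ℂ) ∈ L ∧ P = pol K u w}, fun x => ?_⟩
    constructor
    · rintro ⟨hx, hx'⟩
      refine ⟨hx, ?_⟩
      rintro _ ⟨u, w, hu, hw, rfl⟩
      rw [pol_eval]
      have h1 := hu _ ((hx' _).1 hw)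
      have h2 : x.adjugate = x.det • x⁻¹ := by
        rw [Matrix.inv_def, smul_smul, Ring.mul_inverse_cancel _
          ((Matrix.isUnit_iff_isUnit_det x).1 hx), one_smul]
      rw [h2]
      have h3 : ∀ b : B × B, (u b : ℂ) * (x.det • x⁻¹ * w.map (algebraMap K ℂ) * x) b.1 b.2 =
          x.det * ((u b : ℂ) * fl (x⁻¹ * w.map (algebraMap K ℂ) * x) b) := by
        intro b
        rw [Matrix.smul_mul, Matrix.smul_mul, Matrix.smul_apply, smul_eq_mul]
        show _ = x.det * ((u b : ℂ) * (x⁻¹ * w.map (algebraMap K ℂ) * x) b.1 b.2)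
        ring
      rw [Finset.sum_congr rfl fun b _ => h3 b, ← Finset.mul_sum, h1, mul_zero]
    · rintro ⟨hx, hP⟩
      refine ⟨hx, (resp_iff hc h.compare hx).2 fun w hw => ?_⟩
      have h1 := h.betti hw
      clear hw
      induction h1 using Submodule.span_induction with
      | mem w hw =>
        refine mem_of_ann h.deRham fun u hu huK => ?_
        have h2 := hP _ ⟨fun b => ⟨u b, huK b⟩, Matrix.of fun i j => ⟨w i j, hw.2 i j⟩, hu, by
          have : (Matrix.of fun i j => (⟨w i j, hw.2 i j⟩ : K)).map (algebraMap K ℂ) = w := by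
            ext i j
            rfl
          rw [this]
          exact hw.1, rfl⟩
        rw [pol_eval] at h2
        have h3 : (Matrix.of fun i j => (⟨w i j, hw.2 i j⟩ : K)).map (algebraMap K ℂ) = w := by
          ext i j
          rfl
        rw [h3] at h2
        have hdet := (Matrix.isUnit_iff_isUnit_det x).1 hx
        have h4 : x⁻¹ = (x.det)⁻¹ • x.adjugate := by
          rw [Matrix.inv_def, Ring.inverse_eq_inv']
        rw [h4]
        have h5 : ∀ b : B × B, u b * fl ((x.det)⁻¹ • x.adjugate * w * x) b =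
            (x.det)⁻¹ * (u b * (x.adjugate * w * x) b.1 b.2) := by
          intro b
          show u b * ((x.det)⁻¹ • x.adjugate * w * x) b.1 b.2 = _
          rw [Matrix.smul_mul, Matrix.smul_mul, Matrix.smul_apply, smul_eq_mul]
          ring
        rw [Finset.sum_congr rfl fun b _ => h5 b, ← Finset.mul_sum, h2, mul_zero]
      | zero =>
        rw [Matrix.mul_zero, Matrix.zero_mul]
        exact R.zero_mem
      | add u v _ _ hu hv =>
        rw [Matrix.mul_add, Matrix.add_mul]
        exact R.add_mem hu hv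
      | smul z u _ hu =>
        rw [Matrix.mul_smul, Matrix.smul_mul]
        exact R.smul_mem _ hu

/-- **The Lie algebras of a subtorsor form a subobject.** -/
theorem lie_sub {K : Subfield ℂ} {T : Set (Matrix B B ℂ)} (hT : IsSubtorsor K T)
    {c : Matrix B B ℂ} (hc : c ∈ T) :
    IsSubobject K c ((LL T).comap (flE (B := B)).toLinearMap)
      ((RR T).comap (flE (B := B)).toLinearMap) := by
  refine ⟨rational_iff (LL_def hT), rational_iff (RR_def hT), fun w => ?_⟩
  constructor
  · intro hw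
    exact conj_mem hT hc hw
  · intro hw
    have h1 := conj_mem' hT hc (w := c⁻¹ * w * c) hw
    have h2 : c * (c⁻¹ * w * c) * c⁻¹ = w := by
      have : c * (c⁻¹ * w * c) * c⁻¹ = (c * c⁻¹) * w * (c * c⁻¹) := by
        simp only [Matrix.mul_assoc]
      rw [this, mul_inv' hT hc, Matrix.one_mul, Matrix.mul_one]
    rw [h2] at h1
    exact h1

end gen

end Pool.Agent.V11322.QR
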